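import Pool.Agent.U469.EW.Stm

/-!
Project EW, package FA: flux through a sharp cutoff.
-/

set_option autoImplicit false

open MeasureTheory Set Filter Topology
open scoped ENNReal

namespace Pool.Agent.U913.EW.FA

open Pool.Agent.U469.EW

lemma mem_box {N : ℕ} {k : Wv} : k ∈ box N ↔ ∀ i, -(N : ℤ) ≤ k i ∧ k i ≤ N := by
  unfold box
  rw [Fintype.mem_piFinset]
  simp only [Finset.mem_Icc]

lemma nsq_nonneg (k : Wv) : 0 ≤ nsq k := Finset.sum_nonneg fun _ _ => by positivity

lemma sq_nn (a : Fld) (k : Wv) : 0 ≤ sq a k := Finset.sum_nonneg fun _ _ => by positivity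

lemma comp_le (a : Fld) (k : Wv) (i : Fin 3) : ‖a k i‖ ^ 2 ≤ sq a k :=
  Finset.single_le_sum (f := fun i => ‖a k i‖ ^ 2) (fun _ _ => by positivity) (Finset.mem_univ i)

lemma kcomp_le (k : Wv) (l : Fin 3) : (k l : ℝ) ^ 2 ≤ nsq k :=
  Finset.single_le_sum (f := fun i => (k i : ℝ) ^ 2) (fun _ _ => by positivity)
    (Finset.mem_univ l)

lemma BF_bound (hM : S_MUL) (a : Fld) (ha : Good a) (B W : Finset Wv) (b p : Wv → ℂ) (s : ℝ)
    (hs : 0 ≤ s) (hb : ∀ y : Fin 3 → ℝ, ‖∑ k ∈ W, b k * ch k y‖ ≤ s)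
    (hp : ∀ k, ‖p k‖ ^ 2 ≤ sq a k) (l i : Fin 3) :
    ‖∑ k ∈ B, ((k l : ℂ) * (starRingEnd ℂ) (a k i)) * ∑ j ∈ W, b j * p (k - j)‖ ≤
      √(∑' k, nsq k * sq a k) * (s * √(∑' k, sq a k)) := by
  have hps : Summable (fun k => ‖p k‖ ^ 2) :=
    Summable.of_nonneg_of_le (fun _ => by positivity) hp ha.s0
  calc ‖∑ k ∈ B, ((k l : ℂ) * (starRingEnd ℂ) (a k i)) * ∑ j ∈ W, b j * p (k - j)‖
      ≤ ∑ k ∈ B, ‖((k l : ℂ) * (starRingEnd ℂ) (a k i)) * ∑ j ∈ W, b j * p (k - j)‖ :=
        norm_sum_le _ _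
    _ = ∑ k ∈ B, ‖(k l : ℂ) * (starRingEnd ℂ) (a k i)‖ * ‖∑ j ∈ W, b j * p (k - j)‖ := by
        refine Finset.sum_congr rfl fun k _ => norm_mul _ _
    _ ≤ √(∑ k ∈ B, ‖(k l : ℂ) * (starRingEnd ℂ) (a k i)‖ ^ 2) *
        √(∑ k ∈ B, ‖∑ j ∈ W, b j * p (k - j)‖ ^ 2) := Real.sum_mul_le_sqrt_mul_sqrt _ _ _
    _ ≤ √(∑' k, nsq k * sq a k) * (s * √(∑' k, sq a k)) := by
        refine mul_le_mul (Real.sqrt_le_sqrt ?_) ?_ (Real.sqrt_nonneg _) (Real.sqrt_nonneg _)
        · calc ∑ k ∈ B, ‖(k l : ℂ) * (starRingEnd ℂ) (a k i)‖ ^ 2 ≤ ∑ k ∈ B, nsq k * sq a k := by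
                refine Finset.sum_le_sum fun k _ => ?_
                rw [norm_mul, mul_pow, RCLike.norm_conj]
                have h1 : ‖(k l : ℂ)‖ ^ 2 = (k l : ℝ) ^ 2 := by
                  rw [Complex.norm_intCast, sq_abs]
                rw [h1]
                exact mul_le_mul (kcomp_le k l) (comp_le a k i) (by positivity) (nsq_nonneg k)
            _ ≤ ∑' k, nsq k * sq a k :=
                ha.s1.sum_le_tsum _ fun k _ => mul_nonneg (nsq_nonneg k) (sq_nn a k)
        · have h1 := hM W B b p s hs hb hps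
          have h2 : ∑' k, ‖p k‖ ^ 2 ≤ ∑' k, sq a k := hps.tsum_le_tsum hp ha.s0
          calc √(∑ k ∈ B, ‖∑ j ∈ W, b j * p (k - j)‖ ^ 2) ≤ √(s ^ 2 * ∑' k, sq a k) :=
                Real.sqrt_le_sqrt (h1.trans (mul_le_mul_of_nonneg_left h2 (by positivity)))
            _ = s * √(∑' k, sq a k) := by
                rw [Real.sqrt_mul (by positivity), Real.sqrt_sq hs]

/-- for one `k` -/
lemma one_k (W : Finset Wv) (P Q : Wv → Fin 3 → ℂ) (κ : Fin 3 → ℂ) (α : Fin 3 → ℂ) :
    ∑ m ∈ W, (∑ l, P m l * κ l) * (∑ i, Q m i * α i) =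
      ∑ l, ∑ i, (κ l * α i) * ∑ m ∈ W, Q m i * P m l := by
  have h1 : ∀ m ∈ W, (∑ l, P m l * κ l) * (∑ i, Q m i * α i) =
      ∑ l, ∑ i, (κ l * α i) * (Q m i * P m l) := by
    intro m _
    rw [Finset.sum_mul_sum]
    refine Finset.sum_congr rfl fun l _ => Finset.sum_congr rfl fun i _ => ?_
    ring
  rw [Finset.sum_congr rfl h1, Finset.sum_comm]
  refine Finset.sum_congr rfl fun l _ => ?_
  rw [Finset.sum_comm]
  refine Finset.sum_congr rfl fun i _ => ?_
  rw [Finset.mul_sum]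

/-- nine bilinear sums -/
lemma nine (B : Finset Wv) (Y : Wv → Fin 3 → Fin 3 → ℂ) (R : ℝ)
    (h : ∀ l i, ‖∑ k ∈ B, Y k l i‖ ≤ R) : ‖∑ k ∈ B, ∑ l, ∑ i, Y k l i‖ ≤ 9 * R := by
  have h1 : ∑ k ∈ B, ∑ l, ∑ i, Y k l i = ∑ l, ∑ i, ∑ k ∈ B, Y k l i := by
    rw [Finset.sum_comm]
    refine Finset.sum_congr rfl fun l _ => ?_
    rw [Finset.sum_comm]
  rw [h1]
  calc ‖∑ l, ∑ i, ∑ k ∈ B, Y k l i‖ ≤ ∑ l : Fin 3, ∑ i : Fin 3, R := by
        refine (norm_sum_le _ _).trans (Finset.sum_le_sum fun l _ => ?_)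
        exact (norm_sum_le _ _).trans (Finset.sum_le_sum fun i _ => h l i)
    _ = 9 * R := by
        simp only [Finset.sum_const, Finset.card_univ, Fintype.card_fin, nsmul_eq_mul]
        push_cast
        ring

theorem t_FA (hS : S_SYM) (hM : S_MUL) (hT : S_TRI) (hN : S_CNT) : S_FA := by
  classical
  refine ⟨30, by norm_num, ?_⟩
  intro a ha A M hA hAM s hs hamp
  obtain ⟨y1, y2, y3, y4, -⟩ := hS a ha
  set B := box A with hB
  set W := win A M with hW
  set E0 := ∑' k, sq a k with hE0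
  set E1 := ∑' k, nsq k * sq a k with hE1
  have hWmem : ∀ k, k ∈ W ↔ k ∈ box M ∧ k ∉ box A := by
    intro k
    rw [hW]
    unfold win
    rw [Finset.mem_sdiff]
  have hBM : ∀ k, k ∈ box A → k ∈ box M := by
    intro k hk
    rw [mem_box] at hk ⊢
    intro i
    have := hk i
    omega
  have hsub : ∀ j k, j ∈ box A → k ∈ box A → k - j ∈ box M := by
    intro j k hj hk
    rw [mem_box] at hj hk ⊢
    intro i
    have h1 := hj i
    have h2 := hk i
    simp only [Pi.sub_apply]
    omega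
  -- flux
  have hflux : flux B (fun _ => 1) a = (∑ k ∈ B, ∑' j, X a j k).im := by
    unfold flux
    congr 1
    refine Finset.sum_congr rfl fun k _ => ?_
    rw [y3 k]
    simp
  -- the four parts
  set F1 : Wv → Wv → ℂ := fun k j => if k - j ∈ W then X a j k else 0 with hF1
  set F2 : Wv → Wv → ℂ := fun k j => if k - j ∉ W ∧ j ∈ W then X a j k else 0 with hF2
  set F3 : Wv → Wv → ℂ := fun k j => if j ∈ B ∧ k - j ∈ B then X a j k else 0 with hF3
  set F4 : Wv → Wv → ℂ := fun k j => if j ∉ box M ∧ k - j ∉ box M then X a j k else 0 with hF4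
  have hsplit : ∀ k ∈ B, ∀ j, X a j k = F1 k j + F2 k j + F3 k j + F4 k j := by
    intro k hk j
    simp only [hF1, hF2, hF3, hF4, hWmem]
    by_cases g1 : j ∈ box A
    · have g2 := hsub j k g1 hk
      have g3 := hBM j g1
      by_cases g4 : k - j ∈ box A <;> simp [g1, g2, g3, g4, hB]
    · by_cases g2 : k - j ∈ box A
      · have g3 : j ∈ box M := by
          have := hsub (k - j) k g2 hk
          simpa using this
        have g4 := hBM _ g2
        simp [g1, g2, g3, g4, hB]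
      · by_cases g3 : k - j ∈ box M <;> by_cases g4 : j ∈ box M <;>
          simp [g1, g2, g3, g4, hB]
  have hsm : ∀ (k : Wv) (G : Wv → ℂ), (∀ j, ‖G j‖ ≤ ‖X a j k‖) → Summable G := fun k G h =>
    Summable.of_norm_bounded (y2 k) h
  have s1 : ∀ k, Summable (F1 k) := fun k => hsm k _ fun j => by
    simp only [hF1]; split_ifs <;> simp
  have s2 : ∀ k, Summable (F2 k) := fun k => hsm k _ fun j => by
    simp only [hF2]; split_ifs <;> simp
  have s3 : ∀ k, Summable (F3 k) := fun k => hsm k _ fun j => by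
    simp only [hF3]; split_ifs <;> simp
  have s4 : ∀ k, Summable (F4 k) := fun k => hsm k _ fun j => by
    simp only [hF4]; split_ifs <;> simp
  have hsum : ∑ k ∈ B, ∑' j, X a j k = ∑ k ∈ B, ∑' j, F1 k j + ∑ k ∈ B, ∑' j, F2 k j +
      ∑ k ∈ B, ∑' j, F3 k j + ∑ k ∈ B, ∑' j, F4 k j := by
    rw [← Finset.sum_add_distrib, ← Finset.sum_add_distrib, ← Finset.sum_add_distrib]
    refine Finset.sum_congr rfl fun k hk => ?_
    rw [tsum_congr (hsplit k hk), Summable.tsum_add (((s1 k).add (s2 k)).add (s3 k)) (s4 k),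
      Summable.tsum_add ((s1 k).add (s2 k)) (s3 k), Summable.tsum_add (s1 k) (s2 k)]
  -- evaluation of the components
  have hev : ∀ (i : Fin 3) (y : Fin 3 → ℝ), ‖∑ k ∈ W, a k i * ch k y‖ ≤ s := by
    intro i y
    have h1 : ‖ev W a y i‖ ^ 2 ≤ amp W a y :=
      Finset.single_le_sum (f := fun i => ‖ev W a y i‖ ^ 2) (fun _ _ => by positivity)
        (Finset.mem_univ i)
    have h2 := h1.trans (hamp y)
    exact (sq_le_sq₀ (norm_nonneg _) hs).1 h2
  set R := √E1 * (s * √E0) with hR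
  -- part one
  have b1 : ‖∑ k ∈ B, ∑' j, F1 k j‖ ≤ 9 * R := by
    have h1 : ∀ k ∈ B, ∑' j, F1 k j = ∑ l, ∑ i, ((k l : ℂ) * (starRingEnd ℂ) (a k i)) *
        ∑ m ∈ W, a m i * a (k - m) l := by
      intro k _
      rw [← one_k W (fun m l => a (k - m) l) (fun m i => a m i) (fun l => (k l : ℂ))
        (fun i => (starRingEnd ℂ) (a k i))]
      rw [← Equiv.tsum_eq (Equiv.subLeft k), tsum_eq_sum (s := W)]
      · refine Finset.sum_congr rfl fun m hm => ?_
        simp only [hF1, Equiv.subLeft_apply, sub_sub_cancel]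
        rw [if_pos hm]
        unfold X dt
        simp only [sub_sub_cancel]
      · intro m hm
        simp only [hF1, Equiv.subLeft_apply, sub_sub_cancel]
        rw [if_neg hm]
    rw [Finset.sum_congr rfl h1]
    refine nine B _ R fun l i => ?_
    exact BF_bound hM a ha B W (fun m => a m i) (fun m => a m l) s hs (hev i)
      (fun k => comp_le a k l) l i
  -- part two
  have b2 : ‖∑ k ∈ B, ∑' j, F2 k j‖ ≤ 9 * R := by
    have h1 : ∀ k ∈ B, ∑' j, F2 k j = ∑ l, ∑ i, ((k l : ℂ) * (starRingEnd ℂ) (a k i)) *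
        ∑ j ∈ W, a j l * (if k - j ∈ W then 0 else a (k - j) i) := by
      intro k _
      have h2 := one_k W (fun j l => a j l) (fun j i => if k - j ∈ W then 0 else a (k - j) i)
        (fun l => (k l : ℂ)) (fun i => (starRingEnd ℂ) (a k i))
      have h3 : ∑ l, ∑ i, ((k l : ℂ) * (starRingEnd ℂ) (a k i)) *
          ∑ j ∈ W, a j l * (if k - j ∈ W then 0 else a (k - j) i) =
          ∑ l, ∑ i, ((k l : ℂ) * (starRingEnd ℂ) (a k i)) *
          ∑ j ∈ W, (if k - j ∈ W then 0 else a (k - j) i) * a j l := by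
        refine Finset.sum_congr rfl fun l _ => Finset.sum_congr rfl fun i _ => ?_
        congr 1
        refine Finset.sum_congr rfl fun j _ => ?_
        ring
      rw [h3, ← h2, tsum_eq_sum (s := W)]
      · refine Finset.sum_congr rfl fun j hj => ?_
        simp only [hF2]
        by_cases g : k - j ∈ W
        · simp [g]
        · simp only [g, hj, not_false_eq_true, and_self, if_true, if_false]
          unfold X dt
          rfl
      · intro j hj
        simp only [hF2]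
        rw [if_neg (fun h => hj h.2)]
    rw [Finset.sum_congr rfl h1]
    refine nine B _ R fun l i => ?_
    refine BF_bound hM a ha B W (fun m => a m l) (fun m => if m ∈ W then 0 else a m i) s hs
      (hev l) (fun k => ?_) l i
    split_ifs
    · simpa using sq_nn a k
    · exact comp_le a k i
  -- part three
  have b3 : ∑ k ∈ B, ∑' j, F3 k j = 0 := by
    have h1 : ∀ k ∈ B, ∑' j, F3 k j = ∑ j ∈ B, if k - j ∈ B then X a j k else 0 := by
      intro k _
      rw [tsum_eq_sum (s := B)]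
      · refine Finset.sum_congr rfl fun j hj => ?_
        simp only [hF3, hj, true_and]
      · intro j hj
        simp only [hF3]
        rw [if_neg (fun h => hj h.1)]
    rw [Finset.sum_congr rfl h1, Finset.sum_comm]
    refine Finset.sum_eq_zero fun j hj => ?_
    rw [← Finset.sum_filter]
    have hneg : ∀ x : Wv, x ∈ B → -x ∈ B := by
      intro x hx
      rw [hB, mem_box] at hx ⊢
      intro i
      have := hx i
      simp only [Pi.neg_apply]
      omega
    have h2 : ∑ k ∈ B.filter (fun k => k - j ∈ B), X a j k =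
        ∑ k ∈ B.filter (fun k => k - j ∈ B), X a j (j - k) := by
      refine Finset.sum_nbij' (fun k => j - k) (fun k => j - k) ?_ ?_ ?_ ?_ ?_
      · intro k hk
        rw [Finset.mem_filter] at hk ⊢
        refine ⟨?_, ?_⟩
        · have := hneg _ hk.2
          simpa using this
        · have := hneg _ hk.1
          simpa using this
      · intro k hk
        rw [Finset.mem_filter] at hk ⊢
        refine ⟨?_, ?_⟩
        · have := hneg _ hk.2
          simpa using this
        · have := hneg _ hk.1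
          simpa using this
      · intro k _; simp
      · intro k _; simp
      · intro k _; simp
    have h3 : ∑ k ∈ B.filter (fun k => k - j ∈ B), X a j (j - k) =
        - ∑ k ∈ B.filter (fun k => k - j ∈ B), X a j k := by
      rw [← Finset.sum_neg_distrib]
      exact Finset.sum_congr rfl fun k _ => y1 j k
    rw [h3] at h2
    exact self_eq_neg.1 h2
  -- part four
  have hM1 : (1 : ℝ) ≤ M := by exact_mod_cast (by omega : 1 ≤ M)
  set q : Wv → ℝ := fun j => if j ∈ box M then 0 else √(sq a j) with hq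
  have hq0 : ∀ j, 0 ≤ q j := fun j => by
    simp only [hq]; split_ifs
    · exact le_rfl
    · exact Real.sqrt_nonneg _
  have hq2 : ∀ j, q j ^ 2 = if j ∈ box M then 0 else sq a j := by
    intro j
    simp only [hq]
    split_ifs
    · simp
    · exact Real.sq_sqrt (sq_nn a j)
  have hout : ∀ j, j ∉ box M → (M : ℝ) ^ 2 ≤ nsq j := by
    intro j hj
    rw [mem_box] at hj
    push Not at hj
    obtain ⟨i, hi⟩ := hj
    refine le_trans ?_ (kcomp_le j i)
    have h1 : (M : ℤ) ≤ |j i| := by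
      by_cases g : -(M : ℤ) ≤ j i
      · exact (hi g).le.trans (le_abs_self _)
      · push Not at g
        have := neg_le_abs (j i)
        omega
    have h2 : (M : ℝ) ≤ |(j i : ℝ)| := by exact_mod_cast h1
    rw [← sq_abs (j i : ℝ)]
    exact pow_le_pow_left₀ (by positivity) h2 2
  have hqs : Summable (fun j => q j ^ 2) := by
    refine Summable.of_nonneg_of_le (fun _ => by positivity) (fun j => ?_) ha.s0
    rw [hq2]
    split_ifs
    · exact sq_nn a j
    · exact le_rfl
  have htailS : Summable (fun k => if k ∈ box A then 0 else nsq k * sq a k) := by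
    refine Summable.of_nonneg_of_le (fun k => ?_) (fun k => ?_) ha.s1
    · split_ifs
      · exact le_rfl
      · exact mul_nonneg (nsq_nonneg k) (sq_nn a k)
    · split_ifs
      · exact mul_nonneg (nsq_nonneg k) (sq_nn a k)
      · exact le_rfl
  have hqt : ∑' j, q j ^ 2 ≤ tail A a / (M : ℝ) ^ 2 := by
    unfold tail
    rw [← tsum_div_const]
    refine hqs.tsum_le_tsum (fun j => ?_) (htailS.div_const _)
    rw [hq2]
    by_cases g : j ∈ box M
    · rw [if_pos g]
      refine div_nonneg ?_ (by positivity)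
      split_ifs
      · exact le_rfl
      · exact mul_nonneg (nsq_nonneg j) (sq_nn a j)
    · rw [if_neg g, if_neg (fun h => g (hBM j h)), le_div_iff₀ (by positivity), mul_comm]
      exact mul_le_mul_of_nonneg_right (hout j g) (sq_nn a j)
  have hps : Summable (fun k => √(sq a k) ^ 2) := by
    refine ha.s0.congr fun k => ?_
    exact (Real.sq_sqrt (sq_nn a k)).symm
  have hpt : ∑' k, √(sq a k) ^ 2 = E0 := by
    rw [hE0]
    exact tsum_congr fun k => Real.sq_sqrt (sq_nn a k)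
  have b4 : ‖∑ k ∈ B, ∑' j, F4 k j‖ ≤ (9 * (A : ℝ) ^ (5 / 2 : ℝ)) * √E0 *
      (tail A a / (M : ℝ) ^ 2) := by
    have hF4n : ∀ k j, ‖F4 k j‖ ≤ (√(nsq k) * √(sq a k)) * (q j * q (k - j)) := by
      intro k j
      simp only [hF4, hq]
      by_cases g1 : j ∈ box M
      · simp [g1]
      · by_cases g2 : k - j ∈ box M
        · simp [g2]
        · simp only [g1, g2, not_false_eq_true, and_self, if_true, if_false]
          refine (y4 j k).trans (le_of_eq ?_)
          ring
    have hF4s : ∀ k, Summable (fun j => ‖F4 k j‖) := fun k => (s4 k).norm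
    have h1 : ‖∑ k ∈ B, ∑' j, F4 k j‖ ≤ ∑ k ∈ B, ∑' j, ‖F4 k j‖ :=
      (norm_sum_le _ _).trans (Finset.sum_le_sum fun k _ => norm_tsum_le_tsum_norm (hF4s k))
    have h2 := hT B (fun k => √(nsq k)) (fun k => √(sq a k)) q q (fun _ => Real.sqrt_nonneg _)
      (fun _ => Real.sqrt_nonneg _) hq0 hq0 hps hqs hqs (fun l j => l - j)
      (fun l => sub_right_injective)
    have h3 : ENNReal.ofReal (∑ k ∈ B, ∑' j, ‖F4 k j‖) ≤
        ∑ l ∈ B, ENNReal.ofReal (√(nsq l) * √(sq a l)) *
          ∑' j, ENNReal.ofReal (q j * q (l - j)) := by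
      rw [ENNReal.ofReal_sum_of_nonneg fun k _ => tsum_nonneg fun j => norm_nonneg _]
      refine Finset.sum_le_sum fun k _ => ?_
      rw [ENNReal.ofReal_tsum_of_nonneg (fun j => norm_nonneg _) (hF4s k), ← ENNReal.tsum_mul_left]
      refine ENNReal.tsum_le_tsum fun j => ?_
      rw [← ENNReal.ofReal_mul (by positivity)]
      exact ENNReal.ofReal_le_ofReal (hF4n k j)
    have h4 := (ENNReal.ofReal_le_ofReal_iff (by positivity)).1 (h3.trans h2)
    refine h1.trans (h4.trans ?_)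
    rw [hpt]
    have h5 : √(∑ l ∈ B, √(nsq l) ^ 2) ≤ 9 * (A : ℝ) ^ (5 / 2 : ℝ) := by
      have h6 : ∑ l ∈ B, √(nsq l) ^ 2 = ∑ l ∈ B, nsq l :=
        Finset.sum_congr rfl fun l _ => Real.sq_sqrt (nsq_nonneg l)
      rw [h6]
      refine Real.sqrt_le_iff.2 ⟨by positivity, ?_⟩
      refine (hN A hA).trans (le_of_eq ?_)
      rw [mul_pow, ← Real.rpow_natCast ((A : ℝ) ^ (5 / 2 : ℝ)) 2, ← Real.rpow_mul (by positivity)]
      have h7 : (5 / 2 : ℝ) * ((2 : ℕ) : ℝ) = ((5 : ℕ) : ℝ) := by push_cast; norm_num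
      rw [h7, Real.rpow_natCast]
      norm_num
    have h8 : √(∑' k, q k ^ 2) * √(∑' k, q k ^ 2) ≤ tail A a / (M : ℝ) ^ 2 := by
      rw [Real.mul_self_sqrt (tsum_nonneg fun k => by positivity)]
      exact hqt
    exact mul_le_mul (mul_le_mul_of_nonneg_right h5 (Real.sqrt_nonneg _)) h8 (by positivity)
      (by positivity)
  -- assembly
  have htail0 : 0 ≤ tail A a := by
    refine tsum_nonneg fun k => ?_
    split_ifs
    · exact le_rfl
    · exact mul_nonneg (nsq_nonneg k) (sq_nn a k)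
  have hR0 : 0 ≤ R := mul_nonneg (Real.sqrt_nonneg _) (mul_nonneg hs (Real.sqrt_nonneg _))
  calc |flux B (fun _ => 1) a| ≤ ‖∑ k ∈ B, ∑' j, X a j k‖ := by
        rw [hflux]; exact Complex.abs_im_le_norm _
    _ ≤ 9 * R + 9 * R + 0 + (9 * (A : ℝ) ^ (5 / 2 : ℝ)) * √E0 * (tail A a / (M : ℝ) ^ 2) := by
        rw [hsum]
        refine (norm_add_le _ _).trans (add_le_add ?_ b4)
        refine (norm_add_le _ _).trans (add_le_add ?_ (by rw [b3, norm_zero]))
        exact (norm_add_le _ _).trans (add_le_add b1 b2)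
    _ = 18 * R + 9 * ((A : ℝ) ^ (5 / 2 : ℝ) / (M : ℝ) ^ 2 * √E0 * tail A a) := by ring
    _ ≤ 30 * R + 30 * ((A : ℝ) ^ (5 / 2 : ℝ) / (M : ℝ) ^ 2 * √E0 * tail A a) := by
        have h9 : 0 ≤ (A : ℝ) ^ (5 / 2 : ℝ) / (M : ℝ) ^ 2 * √E0 * tail A a := by positivity
        linarith
    _ = 30 * (s * √E0 * √E1 + (A : ℝ) ^ (5 / 2 : ℝ) / (M : ℝ) ^ 2 * √E0 * tail A a) := by
        rw [hR]; ring

end Pool.Agent.U913.EW.FA
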